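import Pool.Agent.U409.OA.Stm3

set_option autoImplicit false

/-! Project OA, package RC: two adjacent columns may be exchanged in a row. -/

namespace Pool.Agent.U789.OA

open Pool.Agent.U409.OA Finset

variable {L R : Type} [CommRing R]

theorem row_add (X : L → L → Bool → Bool → Bool → Bool → R) (w : L) (v : List L) :
    ∀ (r : Bool) (cs : List Bool) (k k' : Bool → List Bool → R),
      row X w v r cs (fun t c => k t c + k' t c) = row X w v r cs k + row X w v r cs k' := by
  induction v with
  | nil => intro r cs k k'; simp only [row]
  | cons x v ih =>
    intro r cs k k'
    cases cs with
    | nil => simp only [row, add_zero]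
    | cons c cs =>
      simp only [row, Fintype.sum_bool]
      simp only [ih]
      ring

theorem row_smul (X : L → L → Bool → Bool → Bool → Bool → R) (w : L) (v : List L) :
    ∀ (r : Bool) (cs : List Bool) (x : R) (k : Bool → List Bool → R),
      row X w v r cs (fun t c => x * k t c) = x * row X w v r cs k := by
  induction v with
  | nil => intro r cs x k; simp only [row]
  | cons y v ih =>
    intro r cs x k
    cases cs with
    | nil => simp only [row, mul_zero]
    | cons c cs =>
      simp only [row, Fintype.sum_bool]
      simp only [ih]
      ring

theorem sop_add (S : L → L → Bool → Bool → Bool → Bool → R) (a b : L) (n : ℕ) :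
    ∀ (F G : List Bool → R) (cs : List Bool),
      sop S a b n (fun l => F l + G l) cs = sop S a b n F cs + sop S a b n G cs := by
  induction n with
  | zero =>
    intro F G cs
    match cs with
    | [] => simp only [sop, add_zero]
    | [_] => simp only [sop, add_zero]
    | c1 :: c2 :: qs =>
      simp only [sop, Fintype.sum_bool]
      ring
  | succ n ih =>
    intro F G cs
    cases cs with
    | nil => simp only [sop, add_zero]
    | cons c cs => simp only [sop, ih]

theorem sop_smul (S : L → L → Bool → Bool → Bool → Bool → R) (a b : L) (n : ℕ) :
    ∀ (x : R) (F : List Bool → R) (cs : List Bool),
      sop S a b n (fun l => x * F l) cs = x * sop S a b n F cs := by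
  induction n with
  | zero =>
    intro x F cs
    match cs with
    | [] => simp only [sop, mul_zero]
    | [_] => simp only [sop, mul_zero]
    | c1 :: c2 :: qs =>
      simp only [sop, Fintype.sum_bool]
      ring
  | succ n ih =>
    intro x F cs
    cases cs with
    | nil => simp only [sop, mul_zero]
    | cons c cs => simp only [sop, ih]

theorem t_RC : S_RC := by
  intro L R _ X S hYB p q a b w
  induction p with
  | nil =>
    intro r cs k hcs
    match cs, hcs with
    | c1 :: c2 :: cs, _ =>
      simp only [List.nil_append, List.length_nil, sop, row, Fintype.sum_bool]
      simp only [row_add, row_smul]
      have h := fun r' c1' c2' => hYB w a b r c1 c2 r' c1' c2'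
      simp only [Fintype.sum_bool] at h
      linear_combination
        row X w q true cs (fun t c => k t (true :: true :: c)) * h true true true +
        row X w q true cs (fun t c => k t (true :: false :: c)) * h true true false +
        row X w q true cs (fun t c => k t (false :: true :: c)) * h true false true +
        row X w q true cs (fun t c => k t (false :: false :: c)) * h true false false +
        row X w q false cs (fun t c => k t (true :: true :: c)) * h false true true +
        row X w q false cs (fun t c => k t (true :: false :: c)) * h false true false +
        row X w q false cs (fun t c => k t (false :: true :: c)) * h false false true +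
        row X w q false cs (fun t c => k t (false :: false :: c)) * h false false false
  | cons v p ih =>
    intro r cs k hcs
    match cs, hcs with
    | c :: cs, hcs =>
      have hcs' : cs.length = (p ++ a :: b :: q).length := by
        simpa using hcs
      simp only [List.cons_append, List.length_cons, sop, row, Fintype.sum_bool]
      simp only [sop_add, sop_smul, ih _ cs _ hcs']

end Pool.Agent.U789.OA
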